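import Mathlib
import Pool.Agent.Helper475.Asdim
import Pool.Agent.Helper475.Geod
import Pool.Agent.Helper475.Torsion
import Pool.Agent.Helper475.RSE
import Pool.Agent.Helper475.RSTree
import Pool.Agent.Helper475.RSB
import Pool.Agent.Helper475.RSC1
import Pool.Agent.Helper475.RSC2
import Pool.Agent.Helper475.RSC3
import Pool.Agent.Helper475.RSD
import Pool.Agent.Helper475.RSK

set_option autoImplicit false

open Filter

namespace Pool.Agent.Results.MP_b1d060_al.NoVirtuallyAbelianSplitting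

open Pool.Agent.Helper475
open Pool.Agent.Helper475.RSE
open SemidirectProduct

/-- All the data in the torsion factor. -/
theorem exists_base : ∃ (W : Type) (_ : Group W) (S : Finset W) (C : Subgroup W) (γ : ℤ → W)
    (p : ℤ → W) (u v : ℤ → ℤ),
    Subgroup.closure (S : Set W) = ⊤ ∧ (∀ g : W, IsOfFinOrder g) ∧ Infinite C ∧
    (∀ i j, (Geod.gr S).dist (γ i) (γ j) = (i - j).natAbs) ∧ γ 0 = 1 ∧
    (∀ z, (Geod.gr S).dist (p z) (p (z + 1)) ≤ 1) ∧
    (∀ z, (u z - u (z + 1)).natAbs ≤ 1) ∧ (∀ z, (v z - v (z + 1)).natAbs ≤ 1) ∧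
    (∀ R : ℕ, ∃ B : ℕ, ∀ z z', (Geod.gr S).dist (p z) (p z') ≤ R → (u z - u z').natAbs ≤ R →
      (v z - v z').natAbs ≤ R → (z - z').natAbs ≤ B) ∧
    (∀ c ∈ C, ∃ z, p z = c ∧ u z = 0 ∧ v z = 0) := by
  classical
  obtain ⟨T, instT, S0, hS0, hinf0, htor0⟩ := Torsion.exists_inf_torsion
  obtain ⟨W, instW, S, hS, hinf, htor, φ, hφ⟩ := RSB.exists_lamp T S0 hS0 hinf0 htor0
  obtain ⟨j, M, hj, hM0, hM, hup, hlow⟩ := RSC1.sparse S hS φ hφ
  let c : ℕ → W := fun N => φ (Multiplicative.ofAdd (RSC2.chi j N))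
  have hchar : ∀ x : ℕ →₀ ZMod 2, -x = x := by
    intro x
    ext i
    simp [ZMod.neg_eq_self_mod_two]
  have hinj : Function.Injective c := by
    intro a b hab
    exact RSC2.chi_injective j hj (Multiplicative.ofAdd.injective (hφ hab))
  have hxor : ∀ N N', (c N)⁻¹ * c N' = c (N ^^^ N') := by
    intro N N'
    simp only [c]
    rw [← map_inv, ← map_mul, RSC2.chi_xor, ← ofAdd_neg, ← ofAdd_add, hchar]
  have hup' : ∀ k, (Geod.gr S).dist 1 (c (2 ^ (k + 1) - 1)) ≤ M k := by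
    intro k
    simp only [c]
    rw [RSC2.chi_ones]
    exact hup k
  have hc0 : c 0 = 1 := by
    have := hxor 0 0
    simpa using this.symm
  have hlow' : ∀ k N, N ≠ 0 → 2 ^ (k + 1) ∣ N → 2 * M k + k < (Geod.gr S).dist 1 (c N) := by
    intro k N hN hd
    apply hlow k
    · intro h
      apply hN
      apply hinj
      rw [hc0]
      simp only [c]
      rw [h, ofAdd_zero, map_one]
    · intro i hi
      exact RSC2.chi_high j hj k N hd i hi
  obtain ⟨μ, q, a, hq0, hμ, hq, hlip, ha0, ha, h2, h4⟩ :=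
    RSC3.data S hS c M hinj hxor hM0 hM hup' hlow'
  obtain ⟨p, u, v, hp, hu, hv, hprop, hanch⟩ :=
    RSD.anchor_path (Geod.gr S) (Geod.gr_connected S hS) μ q a hμ hq hlip ha0 ha h2 h4
  obtain ⟨γ, hγ⟩ := Geod.exists_geodesic_line W S hS
  have hself : ∀ N, (c N)⁻¹ = c N := by
    intro N
    have := hxor N 0
    rw [hc0, mul_one] at this
    simpa using this
  let C : Subgroup W :=
    { carrier := Set.range c
      one_mem' := ⟨0, hc0⟩
      mul_mem' := by
        rintro _ _ ⟨N, rfl⟩ ⟨N', rfl⟩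
        refine ⟨N ^^^ N', ?_⟩
        rw [← hxor, hself]
      inv_mem' := by
        rintro _ ⟨N, rfl⟩
        exact ⟨N, (hself N).symm⟩ }
  refine ⟨W, instW, S, C, fun i => (γ 0)⁻¹ * γ i, p, u, v, hS, htor, ?_, ?_, by simp, hp, hu, hv,
    hprop, ?_⟩
  · have : (C : Set W).Infinite := Set.infinite_range_of_injective hinj
    exact this.to_subtype
  · intro i j
    have h := Geod.dist_left S hS (γ 0)⁻¹ (γ i) (γ j)
    rw [h]
    exact hγ i j
  · rintro _ ⟨N, rfl⟩
    obtain ⟨z, hz1, hz2, hz3⟩ := hanch N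
    exact ⟨z, by rw [hz1, hq0], hz2, hz3⟩

section

variable {W : Type} [Group W] (S : Finset W) (C : Subgroup W) (m : ℕ)

/-- The subgroup of the product supported on the first coordinate. -/
def CC : Subgroup (AA (m + 3) W) where
  carrier := {a | a 0 ∈ C ∧ ∀ i, i ≠ 0 → a i = 1}
  one_mem' := ⟨C.one_mem, fun _ _ => rfl⟩
  mul_mem' := by
    rintro a b ⟨ha, ha'⟩ ⟨hb, hb'⟩
    exact ⟨C.mul_mem ha hb, fun i hi => by rw [Pi.mul_apply, ha' i hi, hb' i hi, mul_one]⟩
  inv_mem' := by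
    rintro a ⟨ha, ha'⟩
    exact ⟨C.inv_mem ha, fun i hi => by rw [Pi.inv_apply, ha' i hi, inv_one]⟩

theorem CC_infinite (hC : Infinite C) : Infinite (CC C m) := by
  refine Infinite.of_injective (fun c : C => (⟨Pi.mulSingle 0 (c : W), ?_, ?_⟩ : CC C m)) ?_
  · simp
  · intro i hi
    exact Pi.mulSingle_eq_of_ne hi _
  · intro c c' h
    apply Subtype.ext
    have := congrFun (congrArg Subtype.val h) 0
    simpa using this

variable (hS : Subgroup.closure (S : Set W) = ⊤) (γ : ℤ → W)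
  (hγ : ∀ i j, (Geod.gr S).dist (γ i) (γ j) = (i - j).natAbs)

include hS hγ

theorem asdim_ge (n : ℕ) (D : Subgroup (AA n W)) :
    ¬ ∀ r : ℕ, ∃ (ι : Type) (U : ι → Set (GG D)) (B : ℕ),
    (∀ x : GG D, ∃ i, x ∈ U i) ∧
    (∀ i, ∀ x ∈ U i, ∀ y ∈ U i, (gr D S).dist x y ≤ B) ∧
    ∀ x : GG D, {i : ι | ∃ y ∈ U i, (gr D S).dist x y ≤ r}.encard ≤ (n : ℕ∞) := by
  apply Asdim.asdim_lower (gr D S) n (fun x => inr (fun i : Fin n => γ (x i : ℤ))) n
  · intro x y hxy
    refine (inr_up D S hS _ _).trans ?_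
    calc ∑ i : Fin n, (Geod.gr S).dist (γ (x i : ℤ)) (γ (y i : ℤ)) ≤ ∑ _i : Fin n, 1 := by
          apply Finset.sum_le_sum
          intro i _
          rw [hγ]
          rcases hxy i i.2 with h | h <;> rw [h] <;> push_cast <;> omega
      _ = n := by simp
  · intro x y i hi
    have h := proj_lip D S hS ⟨i, hi⟩ (inr (fun i : Fin n => γ (x i : ℤ)))
      (inr (fun i : Fin n => γ (y i : ℤ)))
    simp only [right_inr] at h
    rw [hγ] at h
    exact h

end

section

variable {W : Type} [Group W]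

/-- The flat. -/
def pt (γ p : ℤ → W) (u v : ℤ → ℤ) (m : ℕ) (z : Fin (m + 1) → ℤ) : AA (m + 3) W :=
  Fin.cons (p (z 0)) (Fin.cons (γ (u (z 0))) (Fin.cons (γ (v (z 0)))
    (fun i : Fin m => γ (z i.succ))))

theorem lip_int (F : ℤ → ℤ → ℕ) (h0 : ∀ a, F a a = 0) (htri : ∀ a b c, F a c ≤ F a b + F b c)
    (hsymm : ∀ a b, F a b = F b a)
    (h : ∀ z, F z (z + 1) ≤ 1) (a b : ℤ) : F a b ≤ (a - b).natAbs := by
  have key : ∀ (k : ℕ) (a : ℤ), F a (a + k) ≤ k := by
    intro k
    induction k with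
    | zero => intro a; simp [h0]
    | succ k ih =>
      intro a
      have h1 := ih a
      have h2 := h (a + k)
      have h3 := htri a (a + k) (a + k + 1)
      have e : a + ((k + 1 : ℕ) : ℤ) = a + k + 1 := by push_cast; ring
      rw [e]
      omega
  rcases le_total a b with hab | hab
  · have h1 := key (b - a).toNat a
    have e : a + ((b - a).toNat : ℤ) = b := by omega
    rw [e] at h1
    omega
  · have h1 := key (a - b).toNat b
    have e : b + ((a - b).toNat : ℤ) = a := by omega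
    rw [e, hsymm] at h1
    omega

variable (S : Finset W) (C : Subgroup W) (m : ℕ) (hS : Subgroup.closure (S : Set W) = ⊤)
  (γ p : ℤ → W) (u v : ℤ → ℤ)
  (hγ : ∀ i j, (Geod.gr S).dist (γ i) (γ j) = (i - j).natAbs) (hγ0 : γ 0 = 1)
  (hp : ∀ z, (Geod.gr S).dist (p z) (p (z + 1)) ≤ 1)
  (hu : ∀ z, (u z - u (z + 1)).natAbs ≤ 1) (hv : ∀ z, (v z - v (z + 1)).natAbs ≤ 1)
  (hprop : ∀ R : ℕ, ∃ B : ℕ, ∀ z z', (Geod.gr S).dist (p z) (p z') ≤ R →
    (u z - u z').natAbs ≤ R → (v z - v z').natAbs ≤ R → (z - z').natAbs ≤ B)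
  (hanch : ∀ c ∈ C, ∃ z, p z = c ∧ u z = 0 ∧ v z = 0)

include hS hγ hγ0 hp hu hv hprop hanch

theorem separation : ∃ f : (Fin (m + 1) → ℤ) → GG (CC C m),
    (∃ ρ : ℕ → ℕ, ∀ a b, (gr (CC C m) S).dist (f a) (f b) ≤ ρ (∑ i, |a i - b i|).toNat) ∧
    (∃ ρ : ℕ → ℕ, Tendsto ρ atTop atTop ∧
      ∀ a b, ρ (∑ i, |a i - b i|).toNat ≤ (gr (CC C m) S).dist (f a) (f b)) ∧
    (∃ L : ℕ, ∀ D : ℕ, ∃ x y : GG (CC C m),
      (∀ z, L + D < (gr (CC C m) S).dist x (f z)) ∧
      (∀ z, L + D < (gr (CC C m) S).dist y (f z)) ∧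
      ¬ ∃ p : (gr (CC C m) S).Walk x y, ∀ v ∈ p.support, ∀ z,
        L < (gr (CC C m) S).dist v (f z)) := by
  classical
  have hconn := Geod.gr_connected S hS
  have hp' : ∀ a b : ℤ, (Geod.gr S).dist (p a) (p b) ≤ (a - b).natAbs :=
    lip_int _ (fun a => SimpleGraph.dist_self) (fun a b c => hconn.dist_triangle)
      (fun a b => SimpleGraph.dist_comm) hp
  have hu' : ∀ a b : ℤ, (u a - u b).natAbs ≤ (a - b).natAbs :=
    lip_int (fun a b => (u a - u b).natAbs) (fun a => by simp) (fun a b c => by omega)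
      (fun a b => by omega) hu
  have hv' : ∀ a b : ℤ, (v a - v b).natAbs ≤ (a - b).natAbs :=
    lip_int (fun a b => (v a - v b).natAbs) (fun a => by simp) (fun a b c => by omega)
      (fun a b => by omega) hv
  have hnat : ∀ a b : Fin (m + 1) → ℤ, (∑ i, |a i - b i|).toNat = ∑ i, (a i - b i).natAbs := by
    intro a b
    have : (∑ i, |a i - b i|) = ((∑ i, (a i - b i).natAbs : ℕ) : ℤ) := by
      push_cast
      simp
    rw [this, Int.toNat_natCast]
  refine ⟨fun z => inr (pt γ p u v m z), ⟨fun t => 3 * t, ?_⟩, ?_, 0, ?_⟩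
  · intro a b
    rw [hnat]
    refine (inr_up (CC C m) S hS _ _).trans ?_
    rw [Fin.sum_univ_succ, Fin.sum_univ_succ, Fin.sum_univ_succ, Fin.sum_univ_succ (n := m)]
    simp only [pt, Fin.cons_zero, Fin.cons_succ, hγ]
    have h1 := hp' (a 0) (b 0)
    have h2 := hu' (a 0) (b 0)
    have h3 := hv' (a 0) (b 0)
    omega
  · apply RSK.lower_control (fun a b : Fin (m + 1) → ℤ => (∑ i, |a i - b i|).toNat)
      (fun a b => (gr (CC C m) S).dist (inr (pt γ p u v m a)) (inr (pt γ p u v m b)))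
    intro R
    obtain ⟨B, hB⟩ := hprop R
    refine ⟨B + m * R, ?_⟩
    intro a b hab
    rw [hnat, Fin.sum_univ_succ]
    have hcoord : ∀ i : Fin (m + 3),
        (Geod.gr S).dist (pt γ p u v m a i) (pt γ p u v m b i) ≤ R := by
      intro i
      have := proj_lip (CC C m) S hS i (inr (pt γ p u v m a)) (inr (pt γ p u v m b))
      simp only [right_inr] at this
      exact this.trans hab
    have h0 := hcoord 0
    have h1 := hcoord (Fin.succ 0)
    have h2 := hcoord (Fin.succ (Fin.succ 0))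
    simp only [pt, Fin.cons_zero, Fin.cons_succ, hγ] at h0 h1 h2
    have h3 := hB _ _ h0 h1 h2
    have h4 : ∑ i : Fin m, (a i.succ - b i.succ).natAbs ≤ ∑ _i : Fin m, R := by
      apply Finset.sum_le_sum
      intro i _
      have h := hcoord (Fin.succ (Fin.succ (Fin.succ i)))
      simp only [pt, Fin.cons_succ, hγ] at h
      exact h
    rw [Finset.sum_const, Finset.card_univ, Fintype.card_fin, smul_eq_mul] at h4
    omega
  · intro D
    have hdeep : ∀ (x : GG (CC C m)) (z : Fin (m + 1) → ℤ),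
        (Multiplicative.toAdd (esum (CC C m) x.left)).natAbs = D + 1 →
        0 + D < (gr (CC C m) S).dist x (inr (pt γ p u v m z)) := by
      intro x z hx
      have h := esum_lip (CC C m) S hS x (inr (pt γ p u v m z))
      simp only [left_inr, map_one, toAdd_one, sub_zero] at h
      rw [hx] at h
      omega
    refine ⟨inl (FreeGroup.of (base (CC C m)) ^ (D + 1)),
      inl ((FreeGroup.of (base (CC C m)) ^ (D + 1))⁻¹),
      fun z => hdeep _ z ?_, fun z => hdeep _ z ?_, ?_⟩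
    · rw [left_inl]
      simp only [esum, map_pow, FreeGroup.lift_apply_of, toAdd_pow, toAdd_ofAdd, nsmul_eq_mul,
        mul_one]
      omega
    · rw [left_inl]
      simp only [esum, map_inv, map_pow, FreeGroup.lift_apply_of, toAdd_inv, toAdd_pow,
        toAdd_ofAdd, nsmul_eq_mul, mul_one]
      omega
    · rintro ⟨pp, hpp⟩
      have h1 : ∀ a : AA (m + 3) W, a ∈ CC C m → (inr a : GG (CC C m)) ∉ pp.support := by
        intro a ha hmem
        obtain ⟨z, hz1, hz2, hz3⟩ := hanch (a 0) ha.1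
        have h := hpp _ hmem (Fin.cons z (fun _ => 0))
        have e : pt γ p u v m (Fin.cons z (fun _ => 0)) = a := by
          funext i
          refine Fin.cases ?_ (fun i => ?_) i
          · simp only [pt, Fin.cons_zero]
            exact hz1
          · rw [ha.2 i.succ (Fin.succ_ne_zero i)]
            refine Fin.cases ?_ (fun i => ?_) i
            · simp only [pt, Fin.cons_zero, Fin.cons_succ]
              rw [hz2, hγ0]
            · refine Fin.cases ?_ (fun i => ?_) i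
              · simp only [pt, Fin.cons_zero, Fin.cons_succ]
                rw [hz3, hγ0]
              · simp only [pt, Fin.cons_succ]
                rw [hγ0]
        change 0 < (gr (CC C m) S).dist (inr a)
          (inr (pt γ p u v m (Fin.cons z (fun _ => 0)))) at h
        rw [e, SimpleGraph.dist_self] at h
        omega
      have h2 := walk_branch (CC C m) S pp h1 (by rw [left_inl]; exact last_pow _ _ (by omega))
      rw [left_inl, last_pow_inv _ _ (by omega)] at h2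
      simp at h2

end

/-- For every `n > 3` there is a finitely generated group `G` of asymptotic dimension at least `n`
whose Cayley graph is coarsely separated by a uniformly embedded copy of `ℤ^(n-2)` although every
action of `G` on a tree without inversions, all of whose edge stabilizers are virtually
torsion-free, has a fixed vertex. -/
theorem result : ∀ n : ℕ, 3 < n → ∃ (G : Type) (_ : Group G) (S : Finset G) (Γ : SimpleGraph G),
    Subgroup.closure (S : Set G) = ⊤ ∧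
    Γ = SimpleGraph.fromRel (fun g h : G => g⁻¹ * h ∈ S) ∧
    (¬ ∀ r : ℕ, ∃ (ι : Type) (U : ι → Set G) (D : ℕ),
        (∀ x : G, ∃ i, x ∈ U i) ∧
        (∀ i, ∀ x ∈ U i, ∀ y ∈ U i, Γ.dist x y ≤ D) ∧
        ∀ x : G, {i : ι | ∃ y ∈ U i, Γ.dist x y ≤ r}.encard ≤ (n : ℕ∞)) ∧
    (∃ f : (Fin (n - 2) → ℤ) → G,
        (∃ ρ : ℕ → ℕ, ∀ a b, Γ.dist (f a) (f b) ≤ ρ (∑ i, |a i - b i|).toNat) ∧
        (∃ ρ : ℕ → ℕ, Tendsto ρ atTop atTop ∧
            ∀ a b, ρ (∑ i, |a i - b i|).toNat ≤ Γ.dist (f a) (f b)) ∧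
        (∃ L : ℕ, ∀ D : ℕ, ∃ x y : G,
            (∀ z, L + D < Γ.dist x (f z)) ∧ (∀ z, L + D < Γ.dist y (f z)) ∧
            ¬ ∃ p : Γ.Walk x y, ∀ v ∈ p.support, ∀ z, L < Γ.dist v (f z))) ∧
    ∀ (T : Type) (Γt : SimpleGraph T) (ρ : G →* Equiv.Perm T),
      Γt.IsTree →
      (∀ g u v, Γt.Adj u v → Γt.Adj (ρ g u) (ρ g v)) →
      (∀ g u v, Γt.Adj u v → ¬ (ρ g u = v ∧ ρ g v = u)) →
      (∀ u v, Γt.Adj u v → ∀ H : Subgroup G, (∀ g, g ∈ H ↔ (ρ g u = u ∧ ρ g v = v)) →
        ∃ K : Subgroup G, K ≤ H ∧ (K.subgroupOf H).index ≠ 0 ∧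
          ∀ g ∈ K, IsOfFinOrder g → g = 1) →
      ∃ v, ∀ g, ρ g v = v := by
  intro n hn
  obtain ⟨m, rfl⟩ : ∃ m, n = m + 3 := ⟨n - 3, by omega⟩
  obtain ⟨W, instW, S, C, γ, p, u, v, hS, htor, hC, hγ, hγ0, hp, hu, hv, hprop, hanch⟩ :=
    exists_base
  refine ⟨GG (CC C m), inferInstance, gens (CC C m) S, gr (CC C m) S, gens_closure _ S hS, rfl,
    asdim_ge S hS γ hγ (m + 3) (CC C m),
    separation S C m hS γ p u v hγ hγ0 hp hu hv hprop hanch, ?_⟩
  intro T Γt ρ hT hadj hinv hst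
  exact RSTree.no_action S hS htor (CC C m) (CC_infinite C m hC) T Γt ρ hT hadj hinv hst

end Pool.Agent.Results.MP_b1d060_al.NoVirtuallyAbelianSplitting
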